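import Pool.Agent.V8H55.RD.PL

/-!
# Leaf L2: the derived subdivision over the natural numbers
-/

set_option autoImplicit false

namespace Pool.Agent.V8H55.RD

open Pool.Agent.V8H27.GC (PLC)

section general

variable {V : Type} [LinearOrder V]

theorem dn_star {K : Set (Finset V)} {A : Finset V} {m : V} (hK : ∀ T ∈ K, ∀ S, S ⊆ T → S ∈ K)
    (hm : ∀ T ∈ K, m ∉ T) : ∀ T ∈ Pool.Agent.V8H27.GC.star A m K, ∀ S, S ⊆ T → S ∈ Pool.Agent.V8H27.GC.star A m K := by
  rintro T ⟨hT, hA⟩ S hST
  refine ⟨?_, fun h => hA (h.trans hST)⟩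
  rcases hT with hT | ⟨hmT, hT⟩
  · exact Or.inl (hK T hT S hST)
  · by_cases hmS : m ∈ S
    · refine Or.inr ⟨hmS, hK _ hT _ ?_⟩
      exact Finset.union_subset_union (Finset.erase_subset_erase m hST) (Finset.Subset.refl A)
    · refine Or.inl (hK _ hT _ ?_)
      intro x hx
      refine Finset.mem_union_left _ (Finset.mem_erase.2 ⟨?_, hST hx⟩)
      rintro rfl
      exact hmS hx

theorem PLC_dn {n : ℕ} {K : Set (Finset V)} (h : PLC n K) : ∀ T ∈ K, ∀ S, S ⊆ T → S ∈ K := by
  induction h with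
  | base W _ =>
    intro T hT S hST
    exact lt_of_le_of_lt hST hT
  | star K A m _ _ _ hm ih => exact dn_star ih hm
  | unstar K A m hd _ _ _ _ _ => exact hd

theorem PLC_fin {n : ℕ} {K : Set (Finset V)} (h : PLC n K) : K.Finite := by
  induction h with
  | base W _ =>
    refine (Finset.finite_toSet W.powerset).subset ?_
    intro T hT
    rw [Finset.mem_coe, Finset.mem_powerset]
    exact hT.1
  | star K A m h0 hA hne hm ih =>
    refine (ih.union (ih.image fun S => insert m S)).subset ?_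
    rintro T ⟨hT | ⟨hmT, hT⟩, -⟩
    · exact Or.inl hT
    · refine Or.inr ⟨T.erase m, PLC_dn h0 _ hT _ Finset.subset_union_left, ?_⟩
      exact Finset.insert_erase hmT
  | unstar K A m hd hA hne hm h0 ih =>
    obtain ⟨a, ha⟩ := hne
    refine (ih.union (ih.image fun S => insert a (S.erase m))).subset ?_
    intro T hT
    by_cases hAT : A ⊆ T
    · right
      have hmT : m ∉ T := hm T hT
      have h1 : (insert m (T.erase a)).erase m = T.erase a :=
        Finset.erase_insert fun h => hmT (Finset.mem_of_mem_erase h)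
      refine ⟨insert m (T.erase a), ⟨Or.inr ⟨Finset.mem_insert_self _ _, ?_⟩, ?_⟩, ?_⟩
      · rw [h1]
        refine hd T hT _ ?_
        exact Finset.union_subset (Finset.erase_subset _ _) hAT
      · intro h2
        rcases Finset.mem_insert.1 (h2 ha) with h3 | h3
        · exact hmT (h3 ▸ hAT ha)
        · exact (Finset.notMem_erase a T) h3
      · show insert a ((insert m (T.erase a)).erase m) = T
        rw [h1]
        exact Finset.insert_erase (hAT ha)
    · exact Or.inl ⟨Or.inl hT, hAT⟩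

end general

/-- a bound for the labels of a finite complex -/
theorem exists_bound {T : Set (Finset ℕ)} (h : T.Finite) : ∃ M, ∀ S ∈ T, ∀ x ∈ S, x < M := by
  obtain ⟨B, hB⟩ : ∃ B : Finset ℕ, ∀ S ∈ T, S ⊆ B := by
    refine ⟨h.toFinset.sup id, fun S hS => ?_⟩
    exact Finset.le_sup (f := id) (h.mem_toFinset.2 hS)
  refine ⟨B.sup id + 1, fun S hS x hx => ?_⟩
  exact Nat.lt_succ_of_le (Finset.le_sup (f := id) (hB S hS hx))

/-- **L2.** A flag PL sphere which contains the flag subcomplex `K` as a full subcomplex. -/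
theorem derived {k : ℕ} {T K : Set (Finset ℕ)} (h : PLC k T) (hKT : K ⊆ T) (hdn : ∀ S ∈ K, ∀ R, R ⊆ S → R ∈ K)
    (hK : ∀ S : Finset ℕ, (∀ x ∈ S, ∀ y ∈ S, {x, y} ∈ K) → S ∈ K) :
    ∃ D : Set (Finset ℕ), PLC k D ∧ (∀ S : Finset ℕ, (∀ x ∈ S, ∀ y ∈ S, {x, y} ∈ D) → S ∈ D) ∧
      ∀ x y, {x} ∈ K → {y} ∈ K → ({x, y} ∈ D ↔ {x, y} ∈ K) := by
  have hd := PLC_dn h
  have hfin := PLC_fin h
  obtain ⟨M, hM⟩ := exists_bound hfin
  have h0 : ∅ ∈ K := hK ∅ fun x hx => absurd hx (Finset.notMem_empty x)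
  have hf : Fresh T fun B : Finset ℕ => M + Encodable.encode B := by
    constructor
    · intro A _ B _ hAB
      exact Encodable.encode_injective (Nat.add_left_cancel hAB)
    · intro A _ B hB hx
      have := hM B hB _ hx
      omega
  have hflag : ∀ S : Finset ℕ, (∀ x ∈ S, {x} ∈ K) → (∀ x ∈ S, ∀ y ∈ S, x ≠ y → ({x, y} : Finset ℕ) ∈ K) → S ∈ K := by
    intro S h1 h2
    refine hK S fun x hx y hy => ?_
    by_cases hxy : x = y
    · subst hxy
      rw [Finset.pair_eq_singleton]
      exact h1 x hx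
    · exact h2 x hx y hy hxy
  refine ⟨sd T K fun B : Finset ℕ => M + Encodable.encode B, PLC_sd h hd hfin hdn h0 hf, ?_, ?_⟩
  · intro S hS
    refine flag_sd hf hKT hflag S ?_ fun x hx y hy _ => hS x hx y hy
    intro x hx
    have := hS x hx x hx
    rwa [Finset.pair_eq_singleton] at this
  · intro x y hx hy
    exact pair_mem_sd hf hKT hx hy

end Pool.Agent.V8H55.RD
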