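import Pool.Agent.V8H27.GC.M

/-!
# Homology spheres: transport along an order embedding of the vertex set
-/

set_option autoImplicit false
set_option linter.unusedSectionVars false

noncomputable section

namespace Pool.Agent.V8H55.RD

open Pool.Agent.W907.SG Pool.Agent.V8H27.GC

variable {F : Type} [Field F] {U V : Type} [Fintype U] [LinearOrder U] [Fintype V] [LinearOrder V] (ι : U ↪o V)

/-- the faces whose images are in `D` -/
def pull (D : Set (Finset V)) : Set (Finset U) := {S | S.map ι.toEmbedding ∈ D}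

open Classical in
/-- extension by zero -/
def ext (e : Finset U → F) : Finset V → F := fun T => if h : ∃ S : Finset U, S.map ι.toEmbedding = T then e h.choose else 0

theorem ext_map (e : Finset U → F) (S : Finset U) : ext ι e (S.map ι.toEmbedding) = e S := by
  unfold ext
  have h : ∃ S' : Finset U, S'.map ι.toEmbedding = S.map ι.toEmbedding := ⟨S, rfl⟩
  rw [dif_pos h]
  exact congrArg e (Finset.map_injective _ h.choose_spec)

theorem ext_not (e : Finset U → F) {T : Finset V} (h : ¬ ∃ S : Finset U, S.map ι.toEmbedding = T) : ext ι e T = 0 := by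
  unfold ext
  exact dif_neg h

/-- restriction -/
def rst (c : Finset V → F) : Finset U → F := fun S => c (S.map ι.toEmbedding)

theorem rst_ext (e : Finset U → F) : rst ι (ext ι e) = e := by
  funext S
  exact ext_map ι e S

/-- supported on the sets in the image -/
def InIm (c : Finset V → F) : Prop := ∀ T : Finset V, (¬ ∃ S : Finset U, S.map ι.toEmbedding = T) → c T = 0

theorem inIm_ext (e : Finset U → F) : InIm ι (ext ι e) := fun _ h => ext_not ι e h

theorem ext_rst {c : Finset V → F} (hc : InIm ι c) : ext ι (rst ι c) = c := by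
  funext T
  by_cases h : ∃ S : Finset U, S.map ι.toEmbedding = T
  · obtain ⟨S, rfl⟩ := h
    rw [ext_map]
    rfl
  · rw [ext_not ι _ h, hc T h]

theorem sg_map (w : U) (S : Finset U) : sg (ι w) (S.map ι.toEmbedding) = sg w S := by
  unfold sg
  rw [Finset.filter_map, Finset.card_map]
  congr 2
  ext x
  simp [Function.comp]

theorem bd_rst {c : Finset V → F} (hc : InIm ι c) (S : Finset U) : bd F (rst ι c) S = bd F c (S.map ι.toEmbedding) := by
  classical
  rw [bd_apply, bd_apply]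
  have h1 : ∑ v ∈ Sᶜ.map ι.toEmbedding, sg v (S.map ι.toEmbedding) • c (insert v (S.map ι.toEmbedding)) =
      ∑ v ∈ (S.map ι.toEmbedding)ᶜ, sg v (S.map ι.toEmbedding) • c (insert v (S.map ι.toEmbedding)) := by
    apply Finset.sum_subset
    · intro v hv
      obtain ⟨w, hw, rfl⟩ := Finset.mem_map.1 hv
      rw [Finset.mem_compl] at hw ⊢
      intro h
      obtain ⟨w', hw', h2⟩ := Finset.mem_map.1 h
      exact hw (ι.toEmbedding.injective h2 ▸ hw')
    · intro v hv hv2
      rw [hc, smul_zero]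
      rintro ⟨S', hS'⟩
      have h2 : v ∈ S'.map ι.toEmbedding := by
        rw [hS']
        exact Finset.mem_insert_self _ _
      obtain ⟨w, hw, rfl⟩ := Finset.mem_map.1 h2
      apply hv2
      refine Finset.mem_map_of_mem _ (Finset.mem_compl.2 fun h3 => ?_)
      exact (Finset.mem_compl.1 hv) (Finset.mem_map_of_mem _ h3)
  rw [← h1, Finset.sum_map]
  refine Finset.sum_congr rfl fun w _ => ?_
  have h2 : ι.toEmbedding w = ι w := rfl
  rw [h2, sg_map]
  unfold rst
  rw [Finset.map_insert]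
  rfl

variable {D : Set (Finset V)}

/-- the faces of `D` are in the image -/
def Im (D : Set (Finset V)) : Prop := ∀ T ∈ D, ∃ S : Finset U, S.map ι.toEmbedding = T

theorem Sup.inIm (hD : Im ι D) {i : ℕ} {c : Finset V → F} (hc : Sup D i c) : InIm ι c :=
  fun T hT => hc T fun h => hT (hD T h.1)

theorem sup_rst {i : ℕ} {c : Finset V → F} (hc : Sup D i c) : Sup (pull ι D) i (rst ι c) := by
  intro S hS
  refine hc _ fun h => hS ⟨h.1, ?_⟩
  rw [← h.2, Finset.card_map]

theorem sup_ext {i : ℕ} {e : Finset U → F} (he : Sup (pull ι D) i e) : Sup D i (ext ι e) := by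
  intro T hT
  by_cases h : ∃ S : Finset U, S.map ι.toEmbedding = T
  · obtain ⟨S, rfl⟩ := h
    rw [ext_map]
    refine he _ fun h => hT ⟨h.1, ?_⟩
    rw [Finset.card_map, h.2]
  · exact ext_not ι _ h

theorem cyc_rst (hD : Im ι D) {i : ℕ} {c : Finset V → F} (hc : Cyc D i c) : Cyc (pull ι D) i (rst ι c) :=
  ⟨sup_rst ι hc.1, fun S hS => by rw [bd_rst ι (Sup.inIm ι hD hc.1)]; exact hc.2 _ hS⟩

theorem cyc_ext (hD : Im ι D) {i : ℕ} {e : Finset U → F} (he : Cyc (pull ι D) i e) : Cyc D i (ext ι e) := by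
  refine ⟨sup_ext ι he.1, fun T hT => ?_⟩
  obtain ⟨S, rfl⟩ := hD T hT
  have h3 := bd_rst ι (inIm_ext ι e) S
  rw [rst_ext] at h3
  rw [← h3]
  exact he.2 S hT

theorem bdy_rst (hD : Im ι D) {i : ℕ} {c : Finset V → F} (hc : Bdy D i c) : Bdy (pull ι D) i (rst ι c) := by
  obtain ⟨e, h1, h2⟩ := hc
  refine ⟨rst ι e, sup_rst ι h1, fun S hS => ?_⟩
  rw [bd_rst ι (Sup.inIm ι hD h1)]
  exact h2 _ hS

theorem bdy_ext (hD : Im ι D) {i : ℕ} {e : Finset U → F} (he : Bdy (pull ι D) i e) : Bdy D i (ext ι e) := by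
  obtain ⟨g, h1, h2⟩ := he
  refine ⟨ext ι g, sup_ext ι h1, fun T hT => ?_⟩
  obtain ⟨S, rfl⟩ := hD T hT
  have h3 := bd_rst ι (inIm_ext ι g) S
  rw [rst_ext] at h3
  rw [← h3, ext_map]
  exact h2 S hT

theorem H0_pull (hD : Im ι D) {i : ℕ} (h : H0 F D i) : H0 F (pull ι D) i := by
  intro e he
  have h1 := bdy_rst ι hD (h _ (cyc_ext ι hD he))
  rwa [rst_ext] at h1

theorem H1_pull (hD : Im ι D) {i : ℕ} (h : H1 F D i) : H1 F (pull ι D) i := by
  obtain ⟨z, h1, h2, h3⟩ := h
  refine ⟨rst ι z, cyc_rst ι hD h1, fun h4 => h2 ?_, fun e he => ?_⟩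
  · have h5 := bdy_ext ι hD h4
    rwa [ext_rst ι (Sup.inIm ι hD h1.1)] at h5
  · obtain ⟨a, ha⟩ := h3 _ (cyc_ext ι hD he)
    refine ⟨a, ?_⟩
    have h4 := bdy_rst ι hD ha
    have h5 : rst ι (ext ι e - a • z) = e - a • rst ι z := by
      funext S
      show ext ι e (S.map ι.toEmbedding) - a • z (S.map ι.toEmbedding) = e S - a • z (S.map ι.toEmbedding)
      rw [ext_map]
    rwa [h5] at h4

theorem up_pull (X : Set (Finset V)) (σ : Finset U) : up (pull ι X) σ = pull ι (up X (σ.map ι.toEmbedding)) := by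
  ext S
  show (S.map ι.toEmbedding ∈ X ∧ σ ⊆ S) ↔ (S.map ι.toEmbedding ∈ X ∧ σ.map ι.toEmbedding ⊆ S.map ι.toEmbedding)
  rw [Finset.map_subset_map]

/-- **Transport of homology spheres.** -/
theorem GS_pull {n : ℕ} {X : Set (Finset V)} (hX : ∀ T ∈ X, ∀ x ∈ T, x ∈ Set.range ι) (h : GS F n X) :
    GS F n (pull ι X) := by
  have hI : ∀ σ, Im ι (up X σ) := by
    intro σ T hT
    refine ⟨T.preimage ι ι.injective.injOn, ?_⟩
    ext x
    rw [Finset.mem_map]
    constructor
    · rintro ⟨w, hw, rfl⟩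
      exact Finset.mem_preimage.1 hw
    · intro hx
      obtain ⟨w, rfl⟩ := hX T hT.1 x hx
      exact ⟨w, Finset.mem_preimage.2 hx, rfl⟩
  constructor
  · intro T hT S hST
    exact h.dn _ hT _ (Finset.map_subset_map.2 hST)
  · intro σ hσ
    rw [up_pull]
    exact H1_pull ι (hI _) (h.top _ hσ)
  · intro σ hσ i hi
    rw [up_pull]
    exact H0_pull ι (hI _) (h.oth _ hσ i hi)

end Pool.Agent.V8H55.RD
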