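import Mathlib

/-!
# The derived subdivision relative to a subcomplex

A simplicial complex is a set of finite sets. `stell X s m` is the stellar subdivision of `X` at the simplex `s` with the new
vertex `m`. The derived subdivision of `T` relative to the subcomplex `K` is obtained from `T` by stellar subdivisions at
the simplices outside `K`, and it is a flag complex if `K` is one.
-/

set_option autoImplicit false

namespace Pool.Agent.V8H55.RD

variable {V : Type*} [DecidableEq V]

/-- The stellar subdivision of the complex `X` at the simplex `s`, with the new vertex `m`. -/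
def stell (X : Set (Finset V)) (s : Finset V) (m : V) : Set (Finset V) :=
  {τ | (τ ∈ X ∧ ¬ s ⊆ τ) ∨ (m ∈ τ ∧ τ.erase m ∪ s ∈ X ∧ ¬ s ⊆ τ.erase m)}

/-- closed under subsets -/
def DC (X : Set (Finset V)) : Prop := ∀ τ ∈ X, ∀ ρ, ρ ⊆ τ → ρ ∈ X

/-- The complex after the subdivisions at the simplices in `U`. -/
def TU (T U : Set (Finset V)) (hat : Finset V → V) : Set (Finset V) :=
  {τ | ∃ A ∈ T, A ∉ U ∧ ∃ C : Finset (Finset V), (∀ B ∈ C, B ∈ U) ∧ (∀ B ∈ C, ∀ B' ∈ C, B ⊆ B' ∨ B' ⊆ B) ∧
    (∀ B ∈ C, A ⊂ B) ∧ τ = A ∪ C.image hat}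

/-- the new vertices are new and different -/
structure Fresh (T : Set (Finset V)) (hat : Finset V → V) : Prop where
  inj : ∀ A ∈ T, ∀ B ∈ T, hat A = hat B → A = B
  new : ∀ A ∈ T, ∀ B ∈ T, hat A ∉ B

/-- closed under supersets in `T` -/
structure Up (T U : Set (Finset V)) : Prop where
  sub : ∀ A ∈ U, A ∈ T
  up : ∀ A ∈ U, ∀ B ∈ T, A ⊆ B → B ∈ U

variable {T U K : Set (Finset V)} {hat : Finset V → V}

theorem TU_empty : TU T ∅ hat = T := by
  ext τ
  constructor
  · rintro ⟨A, hA, -, C, hC, -, -, rfl⟩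
    have : C = ∅ := by
      rw [Finset.eq_empty_iff_forall_notMem]
      intro B hB
      exact hC B hB
    subst this
    simpa using hA
  · intro h
    exact ⟨τ, h, fun h => h, ∅, by simp, by simp, by simp, by simp⟩

theorem sub_of_sub_union (hf : Fresh T hat) {s A : Finset V} (hs : s ∈ T) {C : Finset (Finset V)}
    (hC : ∀ B ∈ C, B ∈ T) (h : s ⊆ A ∪ C.image hat) : s ⊆ A := by
  intro x hx
  rcases Finset.mem_union.1 (h hx) with h1 | h1
  · exact h1
  · obtain ⟨B, hB, rfl⟩ := Finset.mem_image.1 h1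
    exact absurd hx (hf.new B (hC B hB) s hs)

theorem mem_of_hat (hf : Fresh T hat) {A B : Finset V} (hA : A ∈ T) (hB : B ∈ T) {C : Finset (Finset V)}
    (hC : ∀ B ∈ C, B ∈ T) (h : hat B ∈ A ∪ C.image hat) : B ∈ C := by
  rcases Finset.mem_union.1 h with h1 | h1
  · exact absurd h1 (hf.new B hB A hA)
  · obtain ⟨B', hB', h2⟩ := Finset.mem_image.1 h1
    have := hf.inj B' (hC B' hB') B hB h2
    subst this
    exact hB'

theorem notMem_hat (hf : Fresh T hat) (hU : Up T U) {s : Finset V} (hs : s ∈ T) (hsU : s ∉ U) {τ : Finset V}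
    (h : τ ∈ TU T U hat) : hat s ∉ τ := by
  obtain ⟨A, hA, -, C, hC, -, -, rfl⟩ := h
  intro h
  exact hsU (hC _ (mem_of_hat hf hA hs (fun B hB => hU.sub _ (hC B hB)) h))

theorem DC_TU (hT : DC T) (hU : Up T U) : DC (TU T U hat) := by
  classical
  rintro τ ⟨A, hA, hAU, C, hC, hch, hAC, rfl⟩ ρ hρ
  refine ⟨ρ ∩ A, hT _ hA _ Finset.inter_subset_right, ?_, C.filter fun B => hat B ∈ ρ, ?_, ?_, ?_, ?_⟩
  · intro h
    exact hAU (hU.up _ h A hA Finset.inter_subset_right)
  · intro B hB
    exact hC B (Finset.mem_filter.1 hB).1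
  · intro B hB B' hB'
    exact hch B (Finset.mem_filter.1 hB).1 B' (Finset.mem_filter.1 hB').1
  · intro B hB
    exact lt_of_le_of_lt Finset.inter_subset_right (hAC B (Finset.mem_filter.1 hB).1)
  · ext x
    simp only [Finset.mem_union, Finset.mem_inter, Finset.mem_image, Finset.mem_filter]
    constructor
    · intro hx
      rcases Finset.mem_union.1 (hρ hx) with h1 | h1
      · exact Or.inl ⟨hx, h1⟩
      · obtain ⟨B, hB, rfl⟩ := Finset.mem_image.1 h1
        exact Or.inr ⟨B, ⟨hB, hx⟩, rfl⟩
    · rintro (⟨h1, -⟩ | ⟨B, ⟨-, h1⟩, rfl⟩)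
      · exact h1
      · exact h1

theorem mem_TU_self (_hU : Up T U) {s : Finset V} (hs : s ∈ T) (hsU : s ∉ U) : s ∈ TU T U hat :=
  ⟨s, hs, hsU, ∅, by simp, by simp, by simp, by simp⟩

/-- **One step.** -/
theorem stell_TU (hT : DC T) (hf : Fresh T hat) (hU : Up T U) {s : Finset V} (hs : s ∈ T) (hsU : s ∉ U)
    (hmax : ∀ B ∈ T, s ⊂ B → B ∈ U) : TU T (insert s U) hat = stell (TU T U hat) s (hat s) := by
  have hU' : ∀ B ∈ insert s U, B ∈ T := by
    intro B hB
    rcases hB with rfl | hB
    · exact hs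
    · exact hU.sub _ hB
  ext τ
  constructor
  · rintro ⟨A, hA, hAU, C, hC, hch, hAC, rfl⟩
    have hAs : A ≠ s := fun h => hAU (Or.inl h)
    have hAU2 : A ∉ U := fun h => hAU (Or.inr h)
    have hCT : ∀ B ∈ C, B ∈ T := fun B hB => hU' B (hC B hB)
    by_cases hsC : s ∈ C
    · right
      have e1 : (A ∪ C.image hat).erase (hat s) = A ∪ (C.erase s).image hat := by
        ext x
        simp only [Finset.mem_erase, Finset.mem_union, Finset.mem_image]
        constructor
        · rintro ⟨hx, h1 | ⟨B, hB, rfl⟩⟩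
          · exact Or.inl h1
          · exact Or.inr ⟨B, ⟨fun h => hx (by rw [h]), hB⟩, rfl⟩
        · rintro (h1 | ⟨B, ⟨hB1, hB⟩, rfl⟩)
          · exact ⟨fun h => hf.new s hs A hA (h ▸ h1), Or.inl h1⟩
          · exact ⟨fun h => hB1 (hf.inj B (hCT B hB) s hs h), Or.inr ⟨B, hB, rfl⟩⟩
      have hAs2 : A ⊂ s := hAC s hsC
      refine ⟨Finset.mem_union_right _ (Finset.mem_image_of_mem _ hsC), ?_, ?_⟩
      · rw [e1]
        refine ⟨s, hs, hsU, C.erase s, ?_, ?_, ?_, ?_⟩
        · intro B hB
          rcases hC B (Finset.mem_of_mem_erase hB) with h | h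
          · exact absurd h (Finset.ne_of_mem_erase hB)
          · exact h
        · intro B hB B' hB'
          exact hch B (Finset.mem_of_mem_erase hB) B' (Finset.mem_of_mem_erase hB')
        · intro B hB
          have hBs := Finset.ne_of_mem_erase hB
          have hBC := Finset.mem_of_mem_erase hB
          have hBU : B ∈ U := by
            rcases hC B hBC with h | h
            · exact absurd h hBs
            · exact h
          rcases hch B hBC s hsC with h | h
          · exact absurd (hU.up B hBU s hs h) hsU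
          · exact lt_of_le_of_ne h (Ne.symm hBs)
        · ext x
          simp only [Finset.mem_union]
          constructor
          · rintro ((h | h) | h)
            · exact Or.inl (hAs2.1 h)
            · exact Or.inr h
            · exact Or.inl h
          · rintro (h | h)
            · exact Or.inr h
            · exact Or.inl (Or.inr h)
      · rw [e1]
        intro h
        have := sub_of_sub_union hf hs (C := C.erase s) (fun B hB => hCT B (Finset.mem_of_mem_erase hB)) h
        exact hAs2.2 this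
    · left
      have hCU : ∀ B ∈ C, B ∈ U := by
        intro B hB
        rcases hC B hB with h | h
        · exact absurd (h ▸ hB) hsC
        · exact h
      refine ⟨⟨A, hA, hAU2, C, hCU, hch, hAC, rfl⟩, ?_⟩
      intro h
      have h1 := sub_of_sub_union hf hs hCT h
      exact hAU2 (hmax A hA (lt_of_le_of_ne h1 (Ne.symm hAs)))
  · rintro (⟨⟨A, hA, hAU, C, hC, hch, hAC, rfl⟩, hns⟩ | ⟨hm, ⟨A', hA', hAU', C, hC, hch, hAC, heq⟩, hns⟩)
    · refine ⟨A, hA, ?_, C, fun B hB => Or.inr (hC B hB), hch, hAC, rfl⟩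
      rintro (rfl | h)
      · exact hns Finset.subset_union_left
      · exact hAU h
    · have hCT : ∀ B ∈ C, B ∈ T := fun B hB => hU.sub _ (hC B hB)
      have hsA' : s ⊆ A' := by
        refine sub_of_sub_union hf hs hCT ?_
        rw [← heq]
        exact Finset.subset_union_right
      have hA's : A' = s := by
        by_contra h
        exact hAU' (hmax A' hA' (lt_of_le_of_ne hsA' (Ne.symm h)))
      subst hA's
      have hAs : τ.erase (hat A') ∩ A' ⊂ A' := by
        refine lt_of_le_of_ne Finset.inter_subset_right fun h => hns ?_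
        intro x hx
        rw [← h] at hx
        exact (Finset.mem_inter.1 hx).1
      refine ⟨τ.erase (hat A') ∩ A', hT _ hs _ Finset.inter_subset_right, ?_, insert A' C, ?_, ?_, ?_, ?_⟩
      · rintro (h | h)
        · exact hAs.ne h
        · exact hsU (hU.up _ h A' hs Finset.inter_subset_right)
      · intro B hB
        rcases Finset.mem_insert.1 hB with rfl | hB
        · exact Or.inl rfl
        · exact Or.inr (hC B hB)
      · intro B hB B' hB'
        rcases Finset.mem_insert.1 hB with h1 | h1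
        · rcases Finset.mem_insert.1 hB' with h2 | h2
          · rw [h1, h2]
            exact Or.inl (Finset.Subset.refl _)
          · rw [h1]
            exact Or.inl (hAC B' h2).1
        · rcases Finset.mem_insert.1 hB' with h2 | h2
          · rw [h2]
            exact Or.inr (hAC B h1).1
          · exact hch B h1 B' h2
      · intro B hB
        rcases Finset.mem_insert.1 hB with rfl | hB
        · exact hAs
        · exact lt_trans hAs (hAC B hB)
      · ext x
        rw [Finset.mem_union, Finset.mem_inter, Finset.mem_image]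
        constructor
        · intro hx
          by_cases hxm : x = hat A'
          · exact Or.inr ⟨A', Finset.mem_insert_self _ _, hxm.symm⟩
          · have h1 : x ∈ τ.erase (hat A') := Finset.mem_erase.2 ⟨hxm, hx⟩
            have h2 : x ∈ A' ∪ C.image hat := by
              rw [← heq]
              exact Finset.mem_union_left _ h1
            rcases Finset.mem_union.1 h2 with h3 | h3
            · exact Or.inl ⟨h1, h3⟩
            · obtain ⟨B, hB, rfl⟩ := Finset.mem_image.1 h3
              exact Or.inr ⟨B, Finset.mem_insert_of_mem hB, rfl⟩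
        · rintro (⟨h1, -⟩ | ⟨B, hB, rfl⟩)
          · exact Finset.mem_of_mem_erase h1
          · rcases Finset.mem_insert.1 hB with rfl | hB
            · exact hm
            · have h2 : hat B ∈ τ.erase (hat A') ∪ A' := by
                rw [heq]
                exact Finset.mem_union_right _ (Finset.mem_image_of_mem _ hB)
              rcases Finset.mem_union.1 h2 with h3 | h3
              · exact Finset.mem_of_mem_erase h3
              · exact absurd h3 (hf.new B (hCT B hB) A' hs)

/-- **The induction.** A property of complexes that passes to stellar subdivisions passes to `TU T U hat`. -/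
theorem P_TU (P : Set (Finset V) → Prop)
    (hP : ∀ (X : Set (Finset V)) (s : Finset V) (m : V), DC X → s ∈ X → s.Nonempty → (∀ τ ∈ X, m ∉ τ) → P X →
      P (stell X s m))
    (hT : DC T) (hf : Fresh T hat) (hPT : P T) :
    ∀ (n : ℕ) (F : Finset (Finset V)), F.card = n → ∅ ∉ F → Up T (F : Set (Finset V)) →
      P (TU T (F : Set (Finset V)) hat) := by
  intro n
  induction n with
  | zero =>
    intro F hF _ _
    rw [Finset.card_eq_zero.1 hF, Finset.coe_empty, TU_empty]
    exact hPT
  | succ n ih =>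
    intro F hF h0 hU
    have hne : F.Nonempty := by
      rw [← Finset.card_pos, hF]
      omega
    obtain ⟨s, hs, hmin⟩ := Finset.exists_min_image F Finset.card hne
    have hU' : Up T ((F.erase s : Finset (Finset V)) : Set (Finset V)) := by
      constructor
      · intro A hA
        exact hU.sub A (Finset.mem_coe.2 (Finset.mem_of_mem_erase (Finset.mem_coe.1 hA)))
      · intro A hA B hB hAB
        have hA' := Finset.mem_coe.1 hA
        rw [Finset.mem_coe, Finset.mem_erase]
        refine ⟨?_, hU.up A (Finset.mem_of_mem_erase hA') B hB hAB⟩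
        rintro rfl
        have h1 := hmin A (Finset.mem_of_mem_erase hA')
        exact Finset.ne_of_mem_erase hA' (Finset.eq_of_subset_of_card_le hAB h1)
    have h1 := ih (F.erase s) (by rw [Finset.card_erase_of_mem hs, hF]; rfl)
      (fun h => h0 (Finset.mem_of_mem_erase h)) hU'
    have hsT : s ∈ T := hU.sub s hs
    have hsn : s ∉ ((F.erase s : Finset (Finset V)) : Set (Finset V)) := by
      rw [Finset.mem_coe]
      exact Finset.notMem_erase s F
    have hmax : ∀ B ∈ T, s ⊂ B → B ∈ ((F.erase s : Finset (Finset V)) : Set (Finset V)) := by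
      intro B hB hsB
      rw [Finset.mem_coe, Finset.mem_erase]
      exact ⟨hsB.ne', hU.up s hs B hB hsB.1⟩
    have h2 := stell_TU hT hf hU' hsT hsn hmax
    have h3 : insert s ((F.erase s : Finset (Finset V)) : Set (Finset V)) = (F : Set (Finset V)) := by
      rw [← Finset.coe_insert, Finset.insert_erase hs]
    rw [h3] at h2
    rw [h2]
    refine hP _ s (hat s) (DC_TU hT hU') (mem_TU_self hU' hsT hsn) ?_ (fun τ hτ => notMem_hat hf hU' hsT hsn hτ) h1
    rw [Finset.nonempty_iff_ne_empty]
    rintro rfl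
    exact h0 hs

/-- The derived subdivision of `T` relative to `K`. -/
def sd (T K : Set (Finset V)) (hat : Finset V → V) : Set (Finset V) := TU T (T \ K) hat

omit [DecidableEq V] in
theorem Up_diff (hK : DC K) : Up T (T \ K) :=
  ⟨fun _ hA => hA.1, fun A hA B hB hAB => ⟨hB, fun h => hA.2 (hK B h A hAB)⟩⟩

theorem P_sd (P : Set (Finset V) → Prop)
    (hP : ∀ (X : Set (Finset V)) (s : Finset V) (m : V), DC X → s ∈ X → s.Nonempty → (∀ τ ∈ X, m ∉ τ) → P X →
      P (stell X s m))
    (hT : DC T) (hfin : T.Finite) (hK : DC K) (h0 : ∅ ∈ K) (hf : Fresh T hat) (hPT : P T) : P (sd T K hat) := by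
  have hF : (T \ K).Finite := hfin.subset Set.sdiff_subset
  have h := P_TU P hP hT hf hPT _ hF.toFinset rfl (by simp [h0]) (by
    rw [Set.Finite.coe_toFinset]
    exact Up_diff hK)
  rw [Set.Finite.coe_toFinset] at h
  exact h

theorem mem_sd {τ : Finset V} : τ ∈ sd T K hat ↔ ∃ A ∈ T, A ∈ K ∧ ∃ C : Finset (Finset V),
    (∀ B ∈ C, B ∈ T ∧ B ∉ K) ∧ (∀ B ∈ C, ∀ B' ∈ C, B ⊆ B' ∨ B' ⊆ B) ∧ (∀ B ∈ C, A ⊂ B) ∧ τ = A ∪ C.image hat := by
  unfold sd TU
  constructor
  · rintro ⟨A, hA, hAU, C, hC, h⟩
    exact ⟨A, hA, by_contra fun h => hAU ⟨hA, h⟩, C, hC, h⟩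
  · rintro ⟨A, hA, hAU, C, hC, h⟩
    exact ⟨A, hA, fun h => h.2 hAU, C, hC, h⟩

theorem DC_sd (hT : DC T) (hK : DC K) : DC (sd T K hat) := DC_TU hT (Up_diff hK)

omit [DecidableEq V] in
/-- A vertex of `K` and a new vertex are different. -/
theorem ne_hat (hf : Fresh T hat) (hKT : K ⊆ T) {x : V} (hx : {x} ∈ K) {B : Finset V} (hB : B ∈ T) : x ≠ hat B := by
  rintro rfl
  exact hf.new B hB _ (hKT hx) (Finset.mem_singleton_self _)

/-- The edges between the vertices of `K`. -/
theorem pair_mem_sd (hf : Fresh T hat) (hKT : K ⊆ T) {x y : V} (hx : {x} ∈ K) (hy : {y} ∈ K) :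
    ({x, y} : Finset V) ∈ sd T K hat ↔ ({x, y} : Finset V) ∈ K := by
  rw [mem_sd]
  constructor
  · rintro ⟨A, hA, hAK, C, hC, -, -, h⟩
    have : C = ∅ := by
      rw [Finset.eq_empty_iff_forall_notMem]
      intro B hB
      have h1 : hat B ∈ ({x, y} : Finset V) := by
        rw [h]
        exact Finset.mem_union_right _ (Finset.mem_image_of_mem _ hB)
      rcases Finset.mem_insert.1 h1 with h2 | h2
      · exact ne_hat hf hKT hx (hC B hB).1 h2.symm
      · exact ne_hat hf hKT hy (hC B hB).1 (Finset.mem_singleton.1 h2).symm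
    subst this
    rw [h]
    simpa using hAK
  · intro h
    exact ⟨_, hKT h, h, ∅, by simp, by simp, by simp, by simp⟩

/-- The vertices of the derived subdivision. -/
theorem singleton_mem_sd {x : V} :
    ({x} : Finset V) ∈ sd T K hat → ({x} : Finset V) ∈ K ∨ ∃ B ∈ T, B ∉ K ∧ hat B = x := by
  rw [mem_sd]
  rintro ⟨A, hA, hAK, C, hC, -, -, h⟩
  rcases C.eq_empty_or_nonempty with rfl | ⟨B, hB⟩
  · left
    rw [h]
    simpa using hAK
  · right
    have h1 : hat B ∈ ({x} : Finset V) := by
      rw [h]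
      exact Finset.mem_union_right _ (Finset.mem_image_of_mem _ hB)
    exact ⟨B, (hC B hB).1, (hC B hB).2, Finset.mem_singleton.1 h1⟩

/-- **The derived subdivision relative to a flag complex is a flag complex.** -/
theorem flag_sd (hf : Fresh T hat) (hKT : K ⊆ T)
    (hflag : ∀ S : Finset V, (∀ x ∈ S, {x} ∈ K) → (∀ x ∈ S, ∀ y ∈ S, x ≠ y → ({x, y} : Finset V) ∈ K) → S ∈ K)
    (S : Finset V) (h1 : ∀ x ∈ S, {x} ∈ sd T K hat)
    (h2 : ∀ x ∈ S, ∀ y ∈ S, x ≠ y → ({x, y} : Finset V) ∈ sd T K hat) : S ∈ sd T K hat := by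
  classical
  have hv : ∀ x ∈ S, ({x} : Finset V) ∉ K → ∃ B, B ∈ T ∧ B ∉ K ∧ hat B = x := by
    intro x hx hxK
    rcases singleton_mem_sd (h1 x hx) with h | ⟨B, hB, hBK, h⟩
    · exact absurd h hxK
    · exact ⟨B, hB, hBK, h⟩
  let g : V → Finset V := fun x => if h : ∃ B, B ∈ T ∧ B ∉ K ∧ hat B = x then h.choose else ∅
  have hg : ∀ x ∈ S, ({x} : Finset V) ∉ K → g x ∈ T ∧ g x ∉ K ∧ hat (g x) = x := by
    intro x hx hxK
    have h := hv x hx hxK
    have : g x = h.choose := dif_pos h
    rw [this]
    exact h.choose_spec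
  have hcomp : ∀ x ∈ S, ∀ B ∈ T, B ∉ K → hat B ∈ S → ({x} : Finset V) ∈ K → x ∈ B := by
    intro x hx B hB hBK hBS hxK
    obtain ⟨A, hA, hAK, C, hC, -, hAC, h⟩ := mem_sd.1 (h2 x hx (hat B) hBS (ne_hat hf hKT hxK hB))
    have hBC : B ∈ C := by
      refine mem_of_hat hf hA hB (fun B hB => (hC B hB).1) ?_
      rw [← h]
      exact Finset.mem_insert_of_mem (Finset.mem_singleton_self _)
    have hxA : x ∈ A := by
      have h3 : x ∈ A ∪ C.image hat := by
        rw [← h]
        exact Finset.mem_insert_self _ _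
      rcases Finset.mem_union.1 h3 with h4 | h4
      · exact h4
      · obtain ⟨B', hB', h5⟩ := Finset.mem_image.1 h4
        exact absurd h5.symm (ne_hat hf hKT hxK (hC B' hB').1)
    exact (hAC B hBC).1 hxA
  have hAK : S.filter (fun x => ({x} : Finset V) ∈ K) ∈ K := by
    apply hflag
    · intro x hx
      exact (Finset.mem_filter.1 hx).2
    · intro x hx y hy hxy
      exact (pair_mem_sd hf hKT (Finset.mem_filter.1 hx).2 (Finset.mem_filter.1 hy).2).1
        (h2 x (Finset.mem_filter.1 hx).1 y (Finset.mem_filter.1 hy).1 hxy)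
  rw [mem_sd]
  refine ⟨S.filter fun x => ({x} : Finset V) ∈ K, hKT hAK, hAK,
    (S.filter fun x => ({x} : Finset V) ∉ K).image g, ?_, ?_, ?_, ?_⟩
  · intro B hB
    obtain ⟨x, hx, rfl⟩ := Finset.mem_image.1 hB
    have := hg x (Finset.mem_filter.1 hx).1 (Finset.mem_filter.1 hx).2
    exact ⟨this.1, this.2.1⟩
  · intro B hB B' hB'
    obtain ⟨x, hx, rfl⟩ := Finset.mem_image.1 hB
    obtain ⟨y, hy, rfl⟩ := Finset.mem_image.1 hB'
    obtain ⟨hxS, hxK⟩ := Finset.mem_filter.1 hx
    obtain ⟨hyS, hyK⟩ := Finset.mem_filter.1 hy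
    obtain ⟨x1, x2, x3⟩ := hg x hxS hxK
    obtain ⟨y1, y2, y3⟩ := hg y hyS hyK
    by_cases hxy : x = y
    · subst hxy
      exact Or.inl (Finset.Subset.refl _)
    obtain ⟨A, hA, -, C, hC, hch, -, h⟩ := mem_sd.1 (h2 x hxS y hyS hxy)
    have hxC : g x ∈ C := by
      refine mem_of_hat hf hA x1 (fun B hB => (hC B hB).1) ?_
      rw [x3, ← h]
      exact Finset.mem_insert_self _ _
    have hyC : g y ∈ C := by
      refine mem_of_hat hf hA y1 (fun B hB => (hC B hB).1) ?_
      rw [y3, ← h]
      exact Finset.mem_insert_of_mem (Finset.mem_singleton_self _)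
    exact hch _ hxC _ hyC
  · intro B hB
    obtain ⟨x, hx, rfl⟩ := Finset.mem_image.1 hB
    obtain ⟨hxS, hxK⟩ := Finset.mem_filter.1 hx
    obtain ⟨x1, x2, x3⟩ := hg x hxS hxK
    refine lt_of_le_of_ne ?_ ?_
    · intro y hy
      exact hcomp y (Finset.mem_filter.1 hy).1 (g x) x1 x2 (by rw [x3]; exact hxS) (Finset.mem_filter.1 hy).2
    · intro h
      rw [← h] at x2
      exact x2 hAK
  · ext x
    rw [Finset.mem_union, Finset.mem_filter, Finset.image_image, Finset.mem_image]
    constructor
    · intro hx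
      by_cases hxK : ({x} : Finset V) ∈ K
      · exact Or.inl ⟨hx, hxK⟩
      · exact Or.inr ⟨x, Finset.mem_filter.2 ⟨hx, hxK⟩, (hg x hx hxK).2.2⟩
    · rintro (⟨hx, -⟩ | ⟨y, hy, rfl⟩)
      · exact hx
      · obtain ⟨hyS, hyK⟩ := Finset.mem_filter.1 hy
        have := (hg y hyS hyK).2.2
        simp only [Function.comp]
        rw [this]
        exact hyS

end Pool.Agent.V8H55.RD
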