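import Pool.Agent.V8H55.RD.Derived
import Pool.Agent.V8H27.GC.Defs

/-!
# The derived subdivision of a PL sphere relative to a flag subcomplex
-/

set_option autoImplicit false

namespace Pool.Agent.V8H55.RD

open Pool.Agent.V8H27.GC (PLC GS)

variable {V : Type} [LinearOrder V]

theorem star_eq (X : Set (Finset V)) (s : Finset V) (m : V) (hm : m ∉ s) :
    Pool.Agent.V8H27.GC.star s m X = stell X s m := by
  ext τ
  have h1 : s ⊆ τ.erase m ↔ s ⊆ τ :=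
    ⟨fun h => h.trans (Finset.erase_subset _ _), fun h x hx => Finset.mem_erase.2 ⟨fun h2 => hm (h2 ▸ hx), h hx⟩⟩
  constructor
  · rintro ⟨h | h, h2⟩
    · exact Or.inl ⟨h, h2⟩
    · exact Or.inr ⟨h.1, h.2, fun h3 => h2 (h1.1 h3)⟩
  · rintro (h | h)
    · exact ⟨Or.inl h.1, h.2⟩
    · exact ⟨Or.inr ⟨h.1, h.2.1⟩, fun h3 => h.2.2 (h1.2 h3)⟩

variable {T K : Set (Finset V)} {hat : Finset V → V} {n : ℕ}

/-- **The derived subdivision of a PL sphere relative to a subcomplex is a PL sphere.** -/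
theorem PLC_sd (hT : PLC n T) (hTd : ∀ τ ∈ T, ∀ ρ, ρ ⊆ τ → ρ ∈ T) (hfin : T.Finite)
    (hK : ∀ τ ∈ K, ∀ ρ, ρ ⊆ τ → ρ ∈ K) (h0 : ∅ ∈ K) (hf : Fresh T hat) : PLC n (sd T K hat) := by
  refine P_sd (PLC n) ?_ hTd hfin hK h0 hf hT
  intro X s m hX hs hne hm h
  rw [← star_eq X s m (hm s hs)]
  exact PLC.star X s m h hs hne hm

/-- The same for any property which passes to stellar subdivisions in the sense of `GC.star`. -/
theorem prop_sd (P : Set (Finset V) → Prop)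
    (hP : ∀ (X : Set (Finset V)) (s : Finset V) (m : V), (∀ τ ∈ X, ∀ ρ, ρ ⊆ τ → ρ ∈ X) → s ∈ X → s.Nonempty →
      (∀ τ ∈ X, m ∉ τ) → P X → P (Pool.Agent.V8H27.GC.star s m X))
    (hT : P T) (hTd : ∀ τ ∈ T, ∀ ρ, ρ ⊆ τ → ρ ∈ T) (hfin : T.Finite)
    (hK : ∀ τ ∈ K, ∀ ρ, ρ ⊆ τ → ρ ∈ K) (h0 : ∅ ∈ K) (hf : Fresh T hat) : P (sd T K hat) := by
  refine P_sd P ?_ hTd hfin hK h0 hf hT
  intro X s m hX hs hne hm h
  rw [← star_eq X s m (hm s hs)]
  exact hP X s m hX hs hne hm h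

/-- the 1-skeleton of a complex -/
def gr (X : Set (Finset V)) : SimpleGraph V where
  Adj x y := x ≠ y ∧ ({x, y} : Finset V) ∈ X
  symm := ⟨fun x y h => ⟨h.1.symm, by rw [Finset.pair_comm]; exact h.2⟩⟩
  loopless := ⟨fun _ h => h.1 rfl⟩

theorem gr_adj (X : Set (Finset V)) (x y : V) : (gr X).Adj x y ↔ x ≠ y ∧ ({x, y} : Finset V) ∈ X := Iff.rfl

/-- The faces of the derived subdivision are the cliques of its 1-skeleton consisting of its vertices. -/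
theorem mem_sd_iff (hTd : ∀ τ ∈ T, ∀ ρ, ρ ⊆ τ → ρ ∈ T) (hK : ∀ τ ∈ K, ∀ ρ, ρ ⊆ τ → ρ ∈ K) (hKT : K ⊆ T)
    (hf : Fresh T hat)
    (hflag : ∀ S : Finset V, (∀ x ∈ S, {x} ∈ K) → (∀ x ∈ S, ∀ y ∈ S, x ≠ y → ({x, y} : Finset V) ∈ K) → S ∈ K)
    (S : Finset V) : S ∈ sd T K hat ↔ (∀ x ∈ S, {x} ∈ sd T K hat) ∧ (gr (sd T K hat)).IsClique (S : Set V) := by
  constructor
  · intro h
    have hd : DC (sd T K hat) := DC_sd hTd hK
    refine ⟨fun x hx => hd S h _ (Finset.singleton_subset_iff.2 hx), ?_⟩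
    intro x hx y hy hxy
    refine ⟨hxy, hd S h _ ?_⟩
    intro z hz
    rcases Finset.mem_insert.1 hz with rfl | hz
    · exact Finset.mem_coe.1 hx
    · rw [Finset.mem_singleton.1 hz]
      exact Finset.mem_coe.1 hy
  · rintro ⟨h1, h2⟩
    exact flag_sd hf hKT hflag S h1 fun x hx y hy hxy => (h2 (Finset.mem_coe.2 hx) (Finset.mem_coe.2 hy) hxy).2

/-- The vertices of `K` are vertices of the derived subdivision. -/
theorem sub_sd (hKT : K ⊆ T) {τ : Finset V} (h : τ ∈ K) : τ ∈ sd T K hat := by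
  rw [mem_sd]
  exact ⟨τ, hKT h, h, ∅, by simp, by simp, by simp, by simp⟩

/-- Two vertices of `K` are adjacent in the derived subdivision if and only if they are adjacent in `K`. -/
theorem gr_sd_adj (hf : Fresh T hat) (hKT : K ⊆ T) {x y : V} (hx : {x} ∈ K) (hy : {y} ∈ K) :
    (gr (sd T K hat)).Adj x y ↔ x ≠ y ∧ ({x, y} : Finset V) ∈ K := by
  rw [gr_adj, pair_mem_sd hf hKT hx hy]

end Pool.Agent.V8H55.RD
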